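import Mathlib
set_option autoImplicit false
open Classical Finset

namespace Pool.Agent.H364R3.Steklov

theorem ball_bound {V : Type} (G : SimpleGraph V) (hG : G.Connected) (D : ℕ)
    (hD : ∀ v : V, (G.neighborSet v).encard ≤ (D : ℕ∞)) :
    ∀ r : ℕ, ∃ M : ℕ, ∀ p : V, ∃ s : Finset V, s.card ≤ M ∧ ∀ v, G.dist p v ≤ r → v ∈ s := by
  have hn : ∀ v, ∃ n : Finset V, n.card ≤ D ∧ ∀ w, G.Adj v w → w ∈ n := by
    intro v
    have hfin : (G.neighborSet v).Finite := Set.finite_of_encard_le_coe (hD v)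
    refine ⟨hfin.toFinset, ?_, fun w hw => by simpa using hw⟩
    have h1 := hD v
    rw [hfin.encard_eq_coe_toFinset_card] at h1
    exact_mod_cast h1
  choose n hn hn' using hn
  intro r
  induction r with
  | zero =>
    refine ⟨1, fun p => ⟨{p}, by simp, fun v hv => ?_⟩⟩
    have h0 : G.dist p v = 0 := by omega
    have h1 := (hG.dist_eq_zero_iff).1 h0
    simp [h1]
  | succ r ih =>
    obtain ⟨M, hM⟩ := ih
    choose s hs hs' using hM
    refine ⟨(D + 1) * M, fun p => ⟨(insert p (n p)).biUnion s, ?_, ?_⟩⟩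
    · refine (Finset.card_biUnion_le_card_mul _ _ M (fun v _ => hs v)).trans ?_
      exact Nat.mul_le_mul_right _ ((Finset.card_insert_le _ _).trans (by have := hn p; omega))
    · intro v hv
      rw [Finset.mem_biUnion]
      obtain ⟨w, hw⟩ := (hG.preconnected p v).exists_walk_length_eq_dist
      cases w with
      | nil => exact ⟨p, by simp, hs' p p (by simp)⟩
      | cons h q =>
        rename_i x
        refine ⟨x, by simp [hn' p x h], hs' x v ?_⟩
        have h1 := G.dist_le q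
        simp only [SimpleGraph.Walk.length_cons] at hw
        omega

/-- multiplicity bound form -/
theorem ball_card {V : Type} (G : SimpleGraph V) (hG : G.Connected) (D : ℕ)
    (hD : ∀ v : V, (G.neighborSet v).encard ≤ (D : ℕ∞)) (r : ℕ) :
    ∃ M : ℕ, 1 ≤ M ∧ ∀ p : V, ∀ s : Finset V, (∀ v ∈ s, G.dist p v ≤ r) → s.card ≤ M := by
  obtain ⟨M, hM⟩ := ball_bound G hG D hD r
  refine ⟨M + 1, by omega, fun p s hs => ?_⟩
  obtain ⟨t, ht, ht'⟩ := hM p
  exact (Finset.card_le_card (fun v hv => ht' v (hs v hv))).trans (by omega)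

theorem quasi_inverse {V₁ V₂ : Type} (G₁ : SimpleGraph V₁) (G₂ : SimpleGraph V₂)
    (h₁ : G₁.Connected) (h₂ : G₂.Connected)
    (h : ∃ φ : V₁ → V₂, ∃ a b c : ℝ, 1 ≤ a ∧ 0 ≤ b ∧ 0 ≤ c ∧
        (∀ x y : V₁, (G₁.dist x y : ℝ) / a - b ≤ (G₂.dist (φ x) (φ y) : ℝ) ∧
          (G₂.dist (φ x) (φ y) : ℝ) ≤ a * (G₁.dist x y : ℝ) + b) ∧
        ∀ z : V₂, ∃ x : V₁, (G₂.dist (φ x) z : ℝ) ≤ c) :
    ∃ (ψ : V₂ → V₁) (L : ℕ → ℕ) (c' : ℕ),
      (∀ n y z, G₂.dist y z ≤ n → G₁.dist (ψ y) (ψ z) ≤ L n) ∧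
      (∀ n y z, G₁.dist (ψ y) (ψ z) ≤ n → G₂.dist y z ≤ L n) ∧
      (∀ v, ∃ y, G₁.dist (ψ y) v ≤ c') := by
  obtain ⟨φ, a, b, c, ha, hb, hc, hφ, hs⟩ := h
  choose ψ hψ using hs
  have ha0 : 0 < a := by linarith
  have key : ∀ x y : V₁, (G₁.dist x y : ℝ) ≤ a * (G₂.dist (φ x) (φ y) + b) := by
    intro x y
    have := (hφ x y).1
    have h3 : (G₁.dist x y : ℝ) / a ≤ G₂.dist (φ x) (φ y) + b := by linarith
    rw [div_le_iff₀ ha0] at h3
    linarith
  have tri1 : ∀ x y z : V₂, (G₂.dist x z : ℝ) ≤ G₂.dist x y + G₂.dist y z := by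
    intro x y z
    exact_mod_cast h₂.dist_triangle
  refine ⟨ψ, fun n => ⌈a * (n + 2 * c + b)⌉₊ + ⌈2 * c + a * n + b⌉₊, ⌈a * (c + b)⌉₊, ?_, ?_, ?_⟩
  · intro n y z hyz
    have h1 := key (ψ y) (ψ z)
    have h2 := tri1 (φ (ψ y)) y (φ (ψ z))
    have h3 := tri1 y z (φ (ψ z))
    have h4 := hψ y
    have h5 := hψ z
    rw [SimpleGraph.dist_comm] at h5
    have h6 : (G₂.dist y z : ℝ) ≤ n := by exact_mod_cast hyz
    have h7 : (G₁.dist (ψ y) (ψ z) : ℝ) ≤ a * (n + 2 * c + b) := by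
      refine h1.trans (mul_le_mul_of_nonneg_left ?_ ha0.le)
      linarith
    have h8 : (G₁.dist (ψ y) (ψ z) : ℝ) ≤ (⌈a * (n + 2 * c + b)⌉₊ : ℝ) := h7.trans (Nat.le_ceil _)
    have h9 : G₁.dist (ψ y) (ψ z) ≤ ⌈a * (n + 2 * c + b)⌉₊ := by exact_mod_cast h8
    exact h9.trans (Nat.le_add_right _ _)
  · intro n y z hyz
    have h2 := tri1 y (φ (ψ y)) z
    have h3 := tri1 (φ (ψ y)) (φ (ψ z)) z
    have h4 := hψ y
    have h5 := hψ z
    rw [SimpleGraph.dist_comm] at h4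
    have h6 : (G₁.dist (ψ y) (ψ z) : ℝ) ≤ n := by exact_mod_cast hyz
    have h7 := (hφ (ψ y) (ψ z)).2
    have h8 : (G₂.dist y z : ℝ) ≤ 2 * c + a * n + b := by
      have : a * (G₁.dist (ψ y) (ψ z) : ℝ) ≤ a * n := mul_le_mul_of_nonneg_left h6 ha0.le
      linarith
    have h9 : (G₂.dist y z : ℝ) ≤ (⌈2 * c + a * n + b⌉₊ : ℝ) := h8.trans (Nat.le_ceil _)
    have h10 : G₂.dist y z ≤ ⌈2 * c + a * n + b⌉₊ := by exact_mod_cast h9
    exact h10.trans (Nat.le_add_left _ _)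
  · intro v
    refine ⟨φ v, ?_⟩
    have h1 := key (ψ (φ v)) v
    have h2 := hψ (φ v)
    have h3 : (G₁.dist (ψ (φ v)) v : ℝ) ≤ a * (c + b) := by
      refine h1.trans (mul_le_mul_of_nonneg_left ?_ ha0.le)
      linarith
    have h4 : (G₁.dist (ψ (φ v)) v : ℝ) ≤ (⌈a * (c + b)⌉₊ : ℝ) := h3.trans (Nat.le_ceil _)
    exact_mod_cast h4

/-- A function with small increments near `p` changes little along a geodesic. -/
theorem walk_bound {V : Type} (G : SimpleGraph V) (f : V → ℝ) (s : ℝ) :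
    ∀ {p q : V} (w : G.Walk p q),
      (∀ u v, G.Adj u v → u ∈ w.support → v ∈ w.support → |f u - f v| ≤ s) →
      |f p - f q| ≤ w.length * s := by
  intro p q w
  induction w with
  | nil => intro _; simp
  | @cons u v w h q ih =>
    intro hs
    have h1 := hs u v h (by simp) (by simp)
    have h2 := ih (fun x y hxy hx hy => hs x y hxy (by simp [hx]) (by simp [hy]))
    have h3 : f u - f w = (f u - f v) + (f v - f w) := by ring
    rw [h3]
    refine (abs_add_le _ _).trans ?_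
    simp only [SimpleGraph.Walk.length_cons]
    push_cast
    linarith

theorem geo_bound {V : Type} (G : SimpleGraph V) (hG : G.Connected) (f : V → ℝ) (s : ℝ) (hs0 : 0 ≤ s)
    (p q : V) (n : ℕ) (hpq : G.dist p q ≤ n)
    (hs : ∀ u v, G.Adj u v → G.dist p u ≤ n → G.dist p v ≤ n → |f u - f v| ≤ s) :
    |f p - f q| ≤ n * s := by
  obtain ⟨w, hw⟩ := (hG.preconnected p q).exists_walk_length_eq_dist
  have hsup : ∀ u ∈ w.support, G.dist p u ≤ n := by
    intro u hu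
    have h1 := G.dist_le (w.takeUntil u hu)
    have h2 := w.length_takeUntil_le_length hu
    omega
  have h := walk_bound G f s w (fun u v huv hu hv => hs u v huv (hsup u hu) (hsup v hv))
  refine h.trans (mul_le_mul_of_nonneg_right ?_ hs0)
  have : w.length ≤ n := by omega
  exact_mod_cast this

/-- Walking out of `Ω ∪ B` one meets `B`. -/
theorem exit {V : Type} (G : SimpleGraph V) (Ω B : Finset V)
    (hB : ∀ v : V, v ∈ B ↔ v ∉ Ω ∧ ∃ u ∈ Ω, G.Adj u v) (g : V → ℝ) (s : ℝ) (hs0 : 0 ≤ s) :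
    ∀ {w y : V} (p : G.Walk w y), (w ∈ Ω ∨ w ∈ B) → (y ∉ Ω ∧ y ∉ B) →
      (∀ x ∈ Ω, ∀ x', (x' ∈ Ω ∨ x' ∈ B) → G.Adj x x' → x ∈ p.support → |g x - g x'| ≤ s) →
      ∃ b ∈ B, b ∈ p.support ∧ |g w - g b| ≤ p.length * s := by
  intro w y p
  induction p with
  | nil => intro h1 h2 _; rcases h1 with h1 | h1
           · exact absurd h1 h2.1
           · exact absurd h1 h2.2
  | @cons u v w h q ih =>
    intro h1 h2 hs
    by_cases hu : u ∈ B
    · exact ⟨u, hu, by simp, by simp; positivity⟩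
    · have hu' : u ∈ Ω := by
        rcases h1 with h1 | h1
        · exact h1
        · exact absurd h1 hu
      have hv : v ∈ Ω ∨ v ∈ B := by
        by_cases hv : v ∈ Ω
        · exact Or.inl hv
        · exact Or.inr ((hB v).2 ⟨hv, u, hu', h⟩)
      obtain ⟨b, hb, hbs, hbg⟩ := ih hv h2 (fun x hx x' hx' hadj hxs =>
        hs x hx x' hx' hadj (by simp [hxs]))
      refine ⟨b, hb, by simp [hbs], ?_⟩
      have h3 := hs u hu' v hv h (by simp)
      have h4 : g u - g b = (g u - g v) + (g v - g b) := by ring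
      rw [h4]
      refine (abs_add_le _ _).trans ?_
      simp only [SimpleGraph.Walk.length_cons]
      push_cast
      linarith

end Pool.Agent.H364R3.Steklov
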