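import Pool.Agent.H364R3.Steklov
set_option autoImplicit false
open Classical Finset

namespace Pool.Agent.H364R3.Steklov

theorem mult_sum {ι κ : Type} (s : Finset ι) (t : Finset κ) (h : κ → ℝ) (hh : ∀ u ∈ t, 0 ≤ h u)
    (P : ι → κ → Prop) [∀ x u, Decidable (P x u)] (M : ℕ) (hM : ∀ u ∈ t, (s.filter (fun x => P x u)).card ≤ M) :
    ∑ x ∈ s, ∑ u ∈ t, (if P x u then h u else 0) ≤ M * ∑ u ∈ t, h u := by
  rw [Finset.sum_comm, Finset.mul_sum]
  refine Finset.sum_le_sum (fun u hu => ?_)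
  rw [← Finset.sum_filter, Finset.sum_const, nsmul_eq_mul]
  exact mul_le_mul_of_nonneg_right (by exact_mod_cast hM u hu) (hh u hu)

/-- maximal independent subset of a finite set -/
theorem exists_indep {V : Type} (G : SimpleGraph V) (S : Finset V) :
    ∃ N : Finset V, N ⊆ S ∧ (∀ u ∈ N, ∀ v ∈ N, ¬ G.Adj u v) ∧
      ∀ v ∈ S, ∃ n ∈ N, n = v ∨ G.Adj n v := by
  let F : Finset (Finset V) := S.powerset.filter (fun N => ∀ u ∈ N, ∀ v ∈ N, ¬ G.Adj u v)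
  have hF : F.Nonempty := ⟨∅, by simp [F]⟩
  obtain ⟨N, hN, hmax⟩ := Finset.exists_max_image F Finset.card hF
  have hN' : N ⊆ S ∧ ∀ u ∈ N, ∀ v ∈ N, ¬ G.Adj u v := by simpa [F] using hN
  refine ⟨N, hN'.1, hN'.2, fun v hv => ?_⟩
  by_contra hc
  push Not at hc
  have hvN : v ∉ N := fun h => (hc v h).1 rfl
  have hins : insert v N ∈ F := by
    simp only [F, Finset.mem_filter, Finset.mem_powerset]
    refine ⟨Finset.insert_subset hv hN'.1, ?_⟩
    intro a ha b hb hab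
    rw [Finset.mem_insert] at ha hb
    rcases ha with rfl | ha <;> rcases hb with rfl | hb
    · exact G.loopless.irrefl _ hab
    · exact (hc b hb).2 hab.symm
    · exact (hc a ha).2 hab
    · exact hN'.2 a ha b hb hab
  have := hmax _ hins
  rw [Finset.card_insert_of_notMem hvN] at this
  omega

/-- The trivial bound for `B` small. -/
theorem trivial_bound {V : Type} (G : SimpleGraph V) (M₂ : ℕ)
    (hM₂ : ∀ p : V, ∀ s : Finset V, (∀ v ∈ s, G.dist p v ≤ 1) → s.card ≤ M₂)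
    (Ω B : Finset V) (hB : ∀ v : V, v ∈ B ↔ v ∉ Ω ∧ ∃ u ∈ Ω, G.Adj u v) (h2 : 2 ≤ B.card) :
    ∃ f : V → ℝ, ∑ x ∈ B, f x = 0 ∧ 0 < ∑ x ∈ B, f x ^ 2 ∧
          (∑ x ∈ Ω, ∑ y ∈ Ω, (if G.Adj x y then (f x - f y) ^ 2 else 0)) / 2 +
            (∑ x ∈ Ω, ∑ y ∈ B, (if G.Adj x y then (f x - f y) ^ 2 else 0))
            ≤ M₂ * ∑ x ∈ B, f x ^ 2 := by
  obtain ⟨b₁, hb₁, b₂, hb₂, hne⟩ := Finset.one_lt_card.1 (show 1 < B.card by omega)
  have hΩ : ∀ x ∈ Ω, x ∉ B := fun x hx hxB => ((hB x).1 hxB).1 hx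
  have h0 : ∀ x ∈ Ω, ((if x = b₁ then (1:ℝ) else 0) - (if x = b₂ then (1:ℝ) else 0)) = 0 := by
    intro x hx
    have h1 : x ≠ b₁ := fun h => hΩ x hx (h ▸ hb₁)
    have h2 : x ≠ b₂ := fun h => hΩ x hx (h ▸ hb₂)
    simp [h1, h2]
  refine ⟨fun x => (if x = b₁ then (1:ℝ) else 0) - (if x = b₂ then (1:ℝ) else 0), ?_, ?_, ?_⟩
  · simp [Finset.sum_sub_distrib, hb₁, hb₂]
  · refine Finset.sum_pos' (fun x _ => sq_nonneg _) ⟨b₁, hb₁, ?_⟩
    simp [hne]
  · set f : V → ℝ := fun x => (if x = b₁ then (1:ℝ) else 0) - (if x = b₂ then (1:ℝ) else 0) with hf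
    have e1 : ∑ x ∈ Ω, ∑ y ∈ Ω, (if G.Adj x y then (f x - f y) ^ 2 else 0) = 0 := by
      refine Finset.sum_eq_zero (fun x hx => Finset.sum_eq_zero (fun y hy => ?_))
      have hx0 : f x = 0 := h0 x hx
      have hy0 : f y = 0 := h0 y hy
      simp [hx0, hy0]
    have e2 : ∑ x ∈ Ω, ∑ y ∈ B, (if G.Adj x y then (f x - f y) ^ 2 else 0)
        = ∑ x ∈ Ω, ∑ y ∈ B, (if G.Adj x y then (f y) ^ 2 else 0) := by
      refine Finset.sum_congr rfl (fun x hx => Finset.sum_congr rfl (fun y hy => ?_))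
      have hx0 : f x = 0 := h0 x hx
      simp [hx0]
    rw [e1, e2, zero_div, zero_add]
    refine mult_sum Ω B (fun y => f y ^ 2) (fun y _ => sq_nonneg _) (fun x y => G.Adj x y) M₂ ?_
    intro y _
    refine hM₂ y _ (fun v hv => ?_)
    rw [Finset.mem_filter] at hv
    have := (SimpleGraph.dist_eq_one_iff_adj (G := G)).2 hv.2.symm
    omega

end Pool.Agent.H364R3.Steklov
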