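import Pool.Agent.H364R3.Steklov2
set_option autoImplicit false
open Classical Finset

namespace Pool.Agent.H364R3.Steklov

/-- Dirichlet energy of `f` on the closure of `Ω`. -/
noncomputable def En {V : Type} (G : SimpleGraph V) (Ω B : Finset V) (f : V → ℝ) : ℝ :=
  (∑ x ∈ Ω, ∑ y ∈ Ω, (if G.Adj x y then (f x - f y) ^ 2 else 0)) / 2 +
    (∑ x ∈ Ω, ∑ y ∈ B, (if G.Adj x y then (f x - f y) ^ 2 else 0))

theorem ee_nonneg {V : Type} (G : SimpleGraph V) (f : V → ℝ) (x y : V) :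
    0 ≤ (if G.Adj x y then (f x - f y) ^ 2 else (0:ℝ)) := by
  split_ifs
  · exact sq_nonneg _
  · exact le_rfl

theorem ee_symm {V : Type} (G : SimpleGraph V) (f : V → ℝ) (x y : V) :
    (if G.Adj x y then (f x - f y) ^ 2 else (0:ℝ)) = (if G.Adj y x then (f y - f x) ^ 2 else (0:ℝ)) := by
  by_cases h : G.Adj x y
  · rw [if_pos h, if_pos h.symm]; ring
  · rw [if_neg h, if_neg (fun h' => h h'.symm)]

theorem En_nonneg {V : Type} (G : SimpleGraph V) (Ω B : Finset V) (f : V → ℝ) : 0 ≤ En G Ω B f := by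
  unfold En
  have h1 : 0 ≤ ∑ x ∈ Ω, ∑ y ∈ Ω, (if G.Adj x y then (f x - f y) ^ 2 else (0:ℝ)) :=
    Finset.sum_nonneg fun x _ => Finset.sum_nonneg fun y _ => ee_nonneg G f x y
  have h2 : 0 ≤ ∑ x ∈ Ω, ∑ y ∈ B, (if G.Adj x y then (f x - f y) ^ 2 else (0:ℝ)) :=
    Finset.sum_nonneg fun x _ => Finset.sum_nonneg fun y _ => ee_nonneg G f x y
  linarith

/-- Energy on `U = Ω' ∪ N`, where `N` is independent and contained in the boundary. -/
theorem EU_le {V : Type} (G : SimpleGraph V) (U N B' : Finset V) (hN : N ⊆ U) (hNB : N ⊆ B')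
    (hind : ∀ u ∈ N, ∀ v ∈ N, ¬ G.Adj u v) (f : V → ℝ) :
    ∑ x ∈ U, ∑ y ∈ U, (if G.Adj x y then (f x - f y) ^ 2 else (0:ℝ)) ≤ 2 * En G (U \ N) B' f := by
  set e : V → V → ℝ := fun x y => (if G.Adj x y then (f x - f y) ^ 2 else (0:ℝ)) with he
  have hU : ∀ g : V → ℝ, ∑ x ∈ U, g x = ∑ x ∈ U \ N, g x + ∑ x ∈ N, g x := by
    intro g
    rw [Finset.sum_sdiff hN]
  have h1 : ∑ x ∈ U, ∑ y ∈ U, e x y = ∑ x ∈ U \ N, ∑ y ∈ U \ N, e x y
      + ∑ x ∈ U \ N, ∑ y ∈ N, e x y + ∑ x ∈ N, ∑ y ∈ U \ N, e x y + ∑ x ∈ N, ∑ y ∈ N, e x y := by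
    rw [hU]
    have h2 : ∀ x, ∑ y ∈ U, e x y = ∑ y ∈ U \ N, e x y + ∑ y ∈ N, e x y := fun x => hU _
    simp only [h2, Finset.sum_add_distrib]
    ring
  have h2 : ∑ x ∈ N, ∑ y ∈ N, e x y = 0 :=
    Finset.sum_eq_zero fun x hx => Finset.sum_eq_zero fun y hy => by simp [he, hind x hx y hy]
  have h3 : ∑ x ∈ N, ∑ y ∈ U \ N, e x y = ∑ x ∈ U \ N, ∑ y ∈ N, e x y := by
    rw [Finset.sum_comm]
    exact Finset.sum_congr rfl fun x _ => Finset.sum_congr rfl fun y _ => ee_symm G f _ _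
  have h4 : ∑ x ∈ U \ N, ∑ y ∈ N, e x y ≤ ∑ x ∈ U \ N, ∑ y ∈ B', e x y :=
    Finset.sum_le_sum fun x _ => Finset.sum_le_sum_of_subset_of_nonneg hNB
      fun y _ _ => ee_nonneg G f x y
  have h5 : En G (U \ N) B' f = (∑ x ∈ U \ N, ∑ y ∈ U \ N, e x y) / 2 + ∑ x ∈ U \ N, ∑ y ∈ B', e x y := rfl
  rw [h5, h1, h2, h3]
  linarith

/-- The core comparison between a finite set in `G₂` and the perforated thickening in `G₁`. -/
theorem core {V₁ V₂ : Type} (G₁ : SimpleGraph V₁) (G₂ : SimpleGraph V₂)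
    (h₁ : G₁.Connected) (h₂ : G₂.Connected)
    (ψ : V₂ → V₁) (L : ℕ → ℕ) (c' : ℕ)
    (hL1 : ∀ n y z, G₂.dist y z ≤ n → G₁.dist (ψ y) (ψ z) ≤ L n)
    (hL2 : ∀ n y z, G₁.dist (ψ y) (ψ z) ≤ n → G₂.dist y z ≤ L n)
    (hc' : ∀ v, ∃ y, G₁.dist (ψ y) v ≤ c')
    (K R T0 K0 T T1 : ℕ) (hK : K = L 1) (hR : R = K + c' + 1) (hT0 : T0 = L (R + 1 + c'))
    (hK0 : K0 = L T0) (hT : T = 2 * R + 1 + K0 + K) (hT1 : T1 = R + T0 * K)
    (M₁ M₂ M₃ : ℕ)
    (hM₁ : ∀ p : V₁, ∀ s : Finset V₁, (∀ v ∈ s, G₁.dist p v ≤ T) → s.card ≤ M₁)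
    (hM₂ : ∀ p : V₂, ∀ s : Finset V₂, (∀ v ∈ s, G₂.dist p v ≤ 1) → s.card ≤ M₂)
    (hM₃ : ∀ p : V₁, ∀ s : Finset V₂, (∀ v ∈ s, G₁.dist p (ψ v) ≤ T) → s.card ≤ M₃)
    (Ω B : Finset V₂) (hB : ∀ v : V₂, v ∈ B ↔ v ∉ Ω ∧ ∃ u ∈ Ω, G₂.Adj u v)
    (hBne : B.Nonempty)
    (U N B' : Finset V₁)
    (hU : ∀ v, v ∈ U ↔ ∃ w, (w ∈ Ω ∨ w ∈ B) ∧ G₁.dist (ψ w) v ≤ R)
    (hN : N ⊆ B.image ψ) (hNind : ∀ u ∈ N, ∀ v ∈ N, ¬ G₁.Adj u v) 
    (hNB : N ⊆ B')
    (hB' : ∀ v, v ∈ B' ↔ v ∉ U \ N ∧ ∃ u ∈ U \ N, G₁.Adj u v)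
    (f : V₁ → ℝ) (hf0 : ∑ x ∈ B', f x = 0) :
    ∃ g : V₂ → ℝ, ∑ x ∈ B, g x = 0 ∧
      En G₂ Ω B g ≤ (4 * M₂ * K ^ 2 * M₃ : ℝ) * En G₁ (U \ N) B' f ∧
      ∑ x ∈ B', f x ^ 2 ≤ (4 + 8 * T1 ^ 2 * M₁ : ℝ) * En G₁ (U \ N) B' f
        + 2 * M₁ * ∑ x ∈ B, g x ^ 2 := by
  have tri : ∀ x y z : V₁, G₁.dist x z ≤ G₁.dist x y + G₁.dist y z := fun x y z => h₁.dist_triangle
  have hNU : N ⊆ U := by
    intro v hv
    obtain ⟨b, hb, rfl⟩ := Finset.mem_image.1 (hN hv)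
    exact (hU _).2 ⟨b, Or.inr hb, by simp⟩
  set e : V₁ → V₁ → ℝ := fun x y => (if G₁.Adj x y then (f x - f y) ^ 2 else (0:ℝ)) with he
  have he0 : ∀ x y, 0 ≤ e x y := fun x y => ee_nonneg G₁ f x y
  set E' := En G₁ (U \ N) B' f with hE'
  have hE'0 : 0 ≤ E' := En_nonneg _ _ _ _
  set h : V₁ → ℝ := fun u => ∑ v ∈ U, e u v with hh
  have hh0 : ∀ u, 0 ≤ h u := fun u => Finset.sum_nonneg fun v _ => he0 u v
  have hEU : ∑ u ∈ U, h u ≤ 2 * E' := EU_le G₁ U N B' hNU hNB hNind f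
  -- local energy
  set q : V₁ → ℝ := fun p => ∑ u ∈ U, (if G₁.dist p u ≤ T then h u else 0) with hq
  have hq0 : ∀ p, 0 ≤ q p := fun p => Finset.sum_nonneg fun u _ => by
    split_ifs
    · exact hh0 u
    · exact le_rfl
  have hloc : ∀ p u v, u ∈ U → v ∈ U → G₁.Adj u v → G₁.dist p u ≤ T → |f u - f v| ≤ √(q p) := by
    intro p u v hu hv huv hpu
    apply Real.le_sqrt_of_sq_le
    rw [sq_abs]
    have h1 : (f u - f v) ^ 2 = e u v := by simp [he, huv]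
    rw [h1]
    have h2 : e u v ≤ h u := Finset.single_le_sum (fun w _ => he0 u w) hv
    have h3 : h u ≤ q p := by
      have h4 := Finset.single_le_sum (f := fun u => (if G₁.dist p u ≤ T then h u else 0))
        (fun w _ => by
          show (0:ℝ) ≤ (if G₁.dist p w ≤ T then h w else 0)
          split_ifs
          · exact hh0 w
          · exact le_rfl) hu
      simp only [if_pos hpu] at h4
      exact h4
    linarith
  -- the step estimate: `x ∈ Ω`, `y ∈ Ω ∪ B` adjacent, `p` within `T - K` of `ψ x`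
  have hstep : ∀ p x y, (x ∈ Ω ∨ x ∈ B) → G₂.Adj x y → G₁.dist p (ψ x) + K ≤ T →
      |f (ψ x) - f (ψ y)| ≤ K * √(q p) := by
    intro p x y hx hxy hp
    have hd : G₁.dist (ψ x) (ψ y) ≤ K := by
      rw [hK]; apply hL1
      exact (SimpleGraph.dist_eq_one_iff_adj.2 hxy).le
    refine geo_bound G₁ h₁ f _ (Real.sqrt_nonneg _) _ _ K hd (fun u v huv hu hv => ?_)
    refine hloc p u v ((hU u).2 ⟨x, hx, by omega⟩) ((hU v).2 ⟨x, hx, by omega⟩) huv ?_
    have := tri p (ψ x) u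
    omega
  set m : ℝ := (∑ x ∈ B, f (ψ x)) / B.card with hm
  have hBc : (0:ℝ) < B.card := by exact_mod_cast Finset.card_pos.2 hBne
  set g : V₂ → ℝ := fun x => f (ψ x) - m with hg
  refine ⟨g, ?_, ?_, ?_⟩
  · simp only [hg, Finset.sum_sub_distrib, Finset.sum_const, nsmul_eq_mul, hm]
    field_simp
    ring
  · -- energy
    have hsum : ∀ S : Finset V₂, ∀ x ∈ Ω,
        ∑ y ∈ S, (if G₂.Adj x y then (g x - g y) ^ 2 else (0:ℝ)) ≤ M₂ * (K ^ 2 * q (ψ x)) := by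
      intro S x hx
      have h1 : ∑ y ∈ S, (if G₂.Adj x y then (g x - g y) ^ 2 else (0:ℝ))
          ≤ ∑ y ∈ S, (if G₂.Adj x y then (K ^ 2 * q (ψ x)) else (0:ℝ)) := by
        refine Finset.sum_le_sum fun y _ => ?_
        split_ifs with hxy
        · have h2 := hstep (ψ x) x y (Or.inl hx) hxy (by rw [SimpleGraph.dist_self]; omega)
          have h3 : (g x - g y) ^ 2 = |f (ψ x) - f (ψ y)| ^ 2 := by rw [sq_abs]; simp [hg]
          rw [h3]
          calc |f (ψ x) - f (ψ y)| ^ 2 ≤ (K * √(q (ψ x))) ^ 2 :=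
                pow_le_pow_left₀ (abs_nonneg _) h2 2
            _ = K ^ 2 * q (ψ x) := by rw [mul_pow, Real.sq_sqrt (hq0 _)]
        · exact le_rfl
      refine h1.trans ?_
      rw [← Finset.sum_filter, Finset.sum_const, nsmul_eq_mul]
      refine mul_le_mul_of_nonneg_right ?_ (mul_nonneg (sq_nonneg _) (hq0 _))
      have := hM₂ x (S.filter (fun y => G₂.Adj x y)) (fun v hv => by
        rw [Finset.mem_filter] at hv
        exact (SimpleGraph.dist_eq_one_iff_adj.2 hv.2).le)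
      exact_mod_cast this
    have hΩq : ∑ x ∈ Ω, q (ψ x) ≤ M₃ * (2 * E') := by
      refine (mult_sum Ω U h (fun u _ => hh0 u) (fun x u => G₁.dist (ψ x) u ≤ T) M₃ ?_).trans ?_
      · intro u _
        refine hM₃ u _ (fun v hv => ?_)
        rw [Finset.mem_filter] at hv
        rw [SimpleGraph.dist_comm]; exact hv.2
      · exact mul_le_mul_of_nonneg_left hEU (Nat.cast_nonneg _)
    have h3 : En G₂ Ω B g ≤ 2 * ∑ x ∈ Ω, (M₂ * (K ^ 2 * q (ψ x))) := by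
      unfold En
      have h4 : ∑ x ∈ Ω, ∑ y ∈ Ω, (if G₂.Adj x y then (g x - g y) ^ 2 else (0:ℝ))
          ≤ ∑ x ∈ Ω, (M₂ * (K ^ 2 * q (ψ x))) := Finset.sum_le_sum fun x hx => hsum Ω x hx
      have h5 : ∑ x ∈ Ω, ∑ y ∈ B, (if G₂.Adj x y then (g x - g y) ^ 2 else (0:ℝ))
          ≤ ∑ x ∈ Ω, (M₂ * (K ^ 2 * q (ψ x))) := Finset.sum_le_sum fun x hx => hsum B x hx
      have h6 : 0 ≤ ∑ x ∈ Ω, (M₂ * (K ^ 2 * q (ψ x)) : ℝ) :=
        Finset.sum_nonneg fun x _ => by have := hq0 (ψ x); positivity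
      linarith
    refine h3.trans ?_
    rw [← Finset.mul_sum, ← Finset.mul_sum]
    have h7 : (0:ℝ) ≤ M₂ * K ^ 2 := by positivity
    calc 2 * ((M₂:ℝ) * (K ^ 2 * ∑ x ∈ Ω, q (ψ x))) = 2 * (M₂ * K ^ 2) * ∑ x ∈ Ω, q (ψ x) := by ring
      _ ≤ 2 * (M₂ * K ^ 2) * (M₃ * (2 * E')) := mul_le_mul_of_nonneg_left hΩq (by positivity)
      _ = (4 * M₂ * K ^ 2 * M₃ : ℝ) * E' := by ring
  · -- boundary norm
    have hβ : ∀ b' ∈ B', ∃ b ∈ B, G₁.dist b' (ψ b) ≤ T ∧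
        (f b' - f (ψ b)) ^ 2 ≤ 2 * ∑ u ∈ U \ N, e u b' + 2 * T1 ^ 2 * q b' := by
      intro b' hb'
      have hpos : 0 ≤ 2 * ∑ u ∈ U \ N, e u b' + 2 * (T1:ℝ) ^ 2 * q b' := by
        have h1 : 0 ≤ ∑ u ∈ U \ N, e u b' := Finset.sum_nonneg fun u _ => he0 u b'
        have h2 := hq0 b'
        positivity
      by_cases hbN : b' ∈ N
      · obtain ⟨b, hb, rfl⟩ := Finset.mem_image.1 (hN hbN)
        exact ⟨b, hb, by simp, by simpa using hpos⟩
      · obtain ⟨hnot, u, hu, hadj⟩ := (hB' b').1 hb'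
        have hbU : b' ∉ U := fun h => hnot (Finset.mem_sdiff.2 ⟨h, hbN⟩)
        have huU : u ∈ U := (Finset.mem_sdiff.1 hu).1
        obtain ⟨w, hw, hwu⟩ := (hU u).1 huU
        obtain ⟨y, hy⟩ := hc' b'
        have hyW : y ∉ Ω ∧ y ∉ B := by
          constructor
          · intro hyΩ; exact hbU ((hU b').2 ⟨y, Or.inl hyΩ, by omega⟩)
          · intro hyB; exact hbU ((hU b').2 ⟨y, Or.inr hyB, by omega⟩)
        have hbu : G₁.dist b' u = 1 := SimpleGraph.dist_eq_one_iff_adj.2 hadj.symm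
        have hwy : G₂.dist w y ≤ T0 := by
          rw [hT0]; apply hL2
          have t1 := tri (ψ w) u (ψ y)
          have t2 := tri u b' (ψ y)
          have t3 : G₁.dist u b' = 1 := by rw [SimpleGraph.dist_comm]; exact hbu
          have t4 : G₁.dist b' (ψ y) = G₁.dist (ψ y) b' := SimpleGraph.dist_comm
          omega
        obtain ⟨p, hp⟩ := (h₂.preconnected w y).exists_walk_length_eq_dist
        have hsup : ∀ x ∈ p.support, G₁.dist (ψ w) (ψ x) ≤ K0 := by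
          intro x hx
          rw [hK0]; apply hL1
          have t1 := G₂.dist_le (p.takeUntil x hx)
          have t2 := p.length_takeUntil_le_length hx
          omega
        have hbw : ∀ z, G₁.dist b' z ≤ 1 + R + G₁.dist (ψ w) z := by
          intro z
          have t1 := tri b' u z
          have t2 := tri u (ψ w) z
          have t3 : G₁.dist u (ψ w) = G₁.dist (ψ w) u := SimpleGraph.dist_comm
          omega
        have hKs : (0:ℝ) ≤ K * √(q b') := by positivity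
        obtain ⟨b, hb, hbs, hbg⟩ := exit G₂ Ω B hB (fun x => f (ψ x)) (K * √(q b')) hKs p hw hyW
          (fun x hx x' _ hadj hxs => hstep b' x x' (Or.inl hx) hadj (by
            have t1 := hbw (ψ x)
            have t2 := hsup x hxs
            omega))
        refine ⟨b, hb, ?_, ?_⟩
        · have t1 := hbw (ψ b)
          have t2 := hsup b hbs
          omega
        · have a1 : |f (ψ w) - f u| ≤ R * √(q b') := by
            refine geo_bound G₁ h₁ f _ (Real.sqrt_nonneg _) _ _ R hwu (fun x z hxz hx hz => ?_)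
            refine hloc b' x z ((hU x).2 ⟨w, hw, hx⟩) ((hU z).2 ⟨w, hw, hz⟩) hxz ?_
            have t1 := hbw x
            omega
          have a2 : |f (ψ w) - f (ψ b)| ≤ T0 * (K * √(q b')) := by
            refine hbg.trans (mul_le_mul_of_nonneg_right ?_ hKs)
            have : p.length ≤ T0 := by omega
            exact_mod_cast this
          have a3 : |f u - f (ψ b)| ≤ T1 * √(q b') := by
            have a4 : f u - f (ψ b) = -(f (ψ w) - f u) + (f (ψ w) - f (ψ b)) := by ring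
            rw [a4]
            refine (abs_add_le _ _).trans ?_
            rw [abs_neg, hT1]
            push_cast
            linarith
          have a5 : (f u - f (ψ b)) ^ 2 ≤ T1 ^ 2 * q b' := by
            rw [← sq_abs]
            calc |f u - f (ψ b)| ^ 2 ≤ (T1 * √(q b')) ^ 2 := pow_le_pow_left₀ (abs_nonneg _) a3 2
              _ = T1 ^ 2 * q b' := by rw [mul_pow, Real.sq_sqrt (hq0 _)]
          have a6 : (f u - f b') ^ 2 ≤ ∑ v ∈ U \ N, e v b' := by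
            have a7 : (f u - f b') ^ 2 = e u b' := by simp [he, hadj]
            rw [a7]
            exact Finset.single_le_sum (f := fun v => e v b') (fun v _ => he0 v b') hu
          have a8 : f b' - f (ψ b) = -(f u - f b') + (f u - f (ψ b)) := by ring
          rw [a8]
          nlinarith [sq_nonneg ((f u - f b') + (f u - f (ψ b)))]
    have hβ' : ∀ b' : V₁, ∃ b, b' ∈ B' → (b ∈ B ∧ G₁.dist b' (ψ b) ≤ T ∧
        (f b' - f (ψ b)) ^ 2 ≤ 2 * ∑ u ∈ U \ N, e u b' + 2 * T1 ^ 2 * q b') := by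
      intro b'
      by_cases hb' : b' ∈ B'
      · obtain ⟨b, hb⟩ := hβ b' hb'
        exact ⟨b, fun _ => hb⟩
      · obtain ⟨b, hb⟩ := hBne
        exact ⟨b, fun h => absurd h hb'⟩
    choose β hβ using hβ'
    have s1 : ∑ x ∈ B', f x ^ 2 ≤ ∑ x ∈ B', (f x - m) ^ 2 := by
      have : ∑ x ∈ B', (f x - m) ^ 2 = ∑ x ∈ B', f x ^ 2 - 2 * m * ∑ x ∈ B', f x + B'.card * m ^ 2 := by
        rw [Finset.mul_sum, ← Finset.sum_sub_distrib]
        have : ∀ x ∈ B', (f x - m) ^ 2 = (f x ^ 2 - 2 * m * f x) + m ^ 2 := fun x _ => by ring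
        rw [Finset.sum_congr rfl this, Finset.sum_add_distrib, Finset.sum_const, nsmul_eq_mul]
      rw [this, hf0]
      have : (0:ℝ) ≤ B'.card * m ^ 2 := by positivity
      linarith
    have s2 : ∀ x ∈ B', (f x - m) ^ 2 ≤ (4 * ∑ u ∈ U \ N, e u x + 4 * T1 ^ 2 * q x) + 2 * g (β x) ^ 2 := by
      intro x hx
      have h1 := (hβ x hx).2.2
      have h2 : f x - m = (f x - f (ψ (β x))) + g (β x) := by simp [hg]
      rw [h2]
      nlinarith [sq_nonneg ((f x - f (ψ (β x))) - g (β x))]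
    have s3 := Finset.sum_le_sum s2
    rw [Finset.sum_add_distrib, Finset.sum_add_distrib, ← Finset.mul_sum, ← Finset.mul_sum,
      ← Finset.mul_sum] at s3
    have s4 : ∑ x ∈ B', ∑ u ∈ U \ N, e u x ≤ E' := by
      rw [Finset.sum_comm]
      have h1 : 0 ≤ ∑ x ∈ U \ N, ∑ y ∈ U \ N, e x y :=
        Finset.sum_nonneg fun x _ => Finset.sum_nonneg fun y _ => he0 x y
      have h5 : E' = (∑ x ∈ U \ N, ∑ y ∈ U \ N, e x y) / 2 + ∑ x ∈ U \ N, ∑ y ∈ B', e x y := rfl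
      rw [h5]; linarith
    have s5 : ∑ x ∈ B', q x ≤ M₁ * (2 * E') := by
      refine (mult_sum B' U h (fun u _ => hh0 u) (fun x u => G₁.dist x u ≤ T) M₁ ?_).trans ?_
      · intro u _
        refine hM₁ u _ (fun v hv => ?_)
        rw [Finset.mem_filter] at hv
        rw [SimpleGraph.dist_comm]; exact hv.2
      · exact mul_le_mul_of_nonneg_left hEU (Nat.cast_nonneg _)
    have s6 : ∑ x ∈ B', g (β x) ^ 2 ≤ M₁ * ∑ b ∈ B, g b ^ 2 := by
      have h1 : ∑ x ∈ B', g (β x) ^ 2 = ∑ x ∈ B', ∑ b ∈ B, (if β x = b then g b ^ 2 else 0) := by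
        refine Finset.sum_congr rfl fun x hx => ?_
        rw [Finset.sum_ite_eq]
        simp [(hβ x hx).1]
      rw [h1]
      refine mult_sum B' B (fun b => g b ^ 2) (fun b _ => sq_nonneg _) (fun x b => β x = b) M₁ ?_
      intro b _
      refine hM₁ (ψ b) _ (fun v hv => ?_)
      rw [Finset.mem_filter] at hv
      have := (hβ v hv.1).2.1
      rw [hv.2] at this
      rw [SimpleGraph.dist_comm]; exact this
    have t1 : 4 * (T1:ℝ) ^ 2 * ∑ x ∈ B', q x ≤ 4 * (T1:ℝ) ^ 2 * (M₁ * (2 * E')) :=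
      mul_le_mul_of_nonneg_left s5 (by positivity)
    have t2 : 4 * ∑ x ∈ B', ∑ u ∈ U \ N, e u x ≤ 4 * E' := by linarith
    calc ∑ x ∈ B', f x ^ 2 ≤ ∑ x ∈ B', (f x - m) ^ 2 := s1
      _ ≤ _ := s3
      _ ≤ (4 * E' + 4 * (T1:ℝ) ^ 2 * (M₁ * (2 * E'))) + 2 * (M₁ * ∑ b ∈ B, g b ^ 2) := by
          linarith
      _ = (4 + 8 * T1 ^ 2 * M₁ : ℝ) * E' + 2 * M₁ * ∑ x ∈ B, g x ^ 2 := by ring

end Pool.Agent.H364R3.Steklov
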