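import Pool.Agent.H364R3.Steklov3
set_option autoImplicit false
open Classical Finset

namespace Pool.Agent.H364R3.Steklov

theorem exists_adj {V : Type} (G : SimpleGraph V) (hG : G.Connected) (hV : Infinite V) (v : V) :
    ∃ u, G.Adj v u := by
  obtain ⟨z, hz⟩ := exists_ne v
  obtain ⟨w⟩ := hG.preconnected v z
  cases w with
  | nil => exact absurd rfl hz
  | cons h q => exact ⟨_, h⟩

theorem final {V₁ V₂ : Type} (G₁ : SimpleGraph V₁) (G₂ : SimpleGraph V₂) (α : ℝ) (hα : 0 < α)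
    (hinf : Infinite V₁) (h₁ : G₁.Connected) (h₂ : G₂.Connected)
    (D₁ : ℕ) (hD₁ : ∀ v : V₁, (G₁.neighborSet v).encard ≤ (D₁ : ℕ∞))
    (D₂ : ℕ) (hD₂ : ∀ v : V₂, (G₂.neighborSet v).encard ≤ (D₂ : ℕ∞))
    (ψ : V₂ → V₁) (L : ℕ → ℕ) (c' : ℕ)
    (hL1 : ∀ n y z, G₂.dist y z ≤ n → G₁.dist (ψ y) (ψ z) ≤ L n)
    (hL2 : ∀ n y z, G₁.dist (ψ y) (ψ z) ≤ n → G₂.dist y z ≤ L n)
    (hc' : ∀ v, ∃ y, G₁.dist (ψ y) v ≤ c')
    (C₁ : ℝ) (hC₁ : ∀ Ω B : Finset V₁, (∀ v : V₁, v ∈ B ↔ v ∉ Ω ∧ ∃ u ∈ Ω, G₁.Adj u v) →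
        2 ≤ B.card → ∃ f : V₁ → ℝ, ∑ x ∈ B, f x = 0 ∧ 0 < ∑ x ∈ B, f x ^ 2 ∧
          En G₁ Ω B f ≤ C₁ / (B.card : ℝ) ^ α * ∑ x ∈ B, f x ^ 2) :
    ∃ C : ℝ, ∀ Ω B : Finset V₂, (∀ v : V₂, v ∈ B ↔ v ∉ Ω ∧ ∃ u ∈ Ω, G₂.Adj u v) →
        2 ≤ B.card → ∃ f : V₂ → ℝ, ∑ x ∈ B, f x = 0 ∧ 0 < ∑ x ∈ B, f x ^ 2 ∧
          En G₂ Ω B f ≤ C / (B.card : ℝ) ^ α * ∑ x ∈ B, f x ^ 2 := by
  obtain ⟨K, hK⟩ : ∃ K, K = L 1 := ⟨_, rfl⟩
  obtain ⟨R, hR⟩ : ∃ R, R = K + c' + 1 := ⟨_, rfl⟩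
  obtain ⟨T0, hT0⟩ : ∃ T0, T0 = L (R + 1 + c') := ⟨_, rfl⟩
  obtain ⟨K0, hK0⟩ : ∃ K0, K0 = L T0 := ⟨_, rfl⟩
  obtain ⟨T, hT⟩ : ∃ T, T = 2 * R + 1 + K0 + K := ⟨_, rfl⟩
  obtain ⟨T1, hT1⟩ : ∃ T1, T1 = R + T0 * K := ⟨_, rfl⟩
  obtain ⟨M₁, hM₁1, hM₁⟩ := ball_card G₁ h₁ D₁ hD₁ T
  obtain ⟨M₂, hM₂1, hM₂⟩ := ball_card G₂ h₂ D₂ hD₂ 1
  obtain ⟨M₃, hM₃1, hM₃'⟩ := ball_card G₂ h₂ D₂ hD₂ (L (2 * T))
  have hM₃ : ∀ p : V₁, ∀ s : Finset V₂, (∀ v ∈ s, G₁.dist p (ψ v) ≤ T) → s.card ≤ M₃ := by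
    intro p s hs
    rcases s.eq_empty_or_nonempty with rfl | ⟨x0, hx0⟩
    · simp
    · refine hM₃' x0 s (fun v hv => hL2 _ _ _ ?_)
      have t1 : G₁.dist (ψ x0) (ψ v) ≤ G₁.dist (ψ x0) p + G₁.dist p (ψ v) := h₁.dist_triangle
      have t2 := hs x0 hx0
      have t3 := hs v hv
      rw [SimpleGraph.dist_comm] at t2
      omega
  have hbR := ball_bound G₁ h₁ D₁ hD₁ R
  obtain ⟨_, hbR⟩ := hbR
  choose sR _ hsR using hbR
  have hb1 := ball_bound G₁ h₁ D₁ hD₁ 1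
  obtain ⟨_, hb1⟩ := hb1
  choose s1 _ hs1 using hb1
  -- constants
  set A3 : ℝ := (4 + 8 * T1 ^ 2 * M₁ : ℝ) with hA3
  set A6 : ℝ := (4 * M₂ * K ^ 2 * M₃ : ℝ) with hA6
  set P : ℝ := max C₁ 0 * (M₃ : ℝ) ^ α with hP
  set X : ℝ := 2 * A3 * P + (M₃ : ℝ) ^ α with hX
  have hA30 : 0 ≤ A3 := by positivity
  have hA60 : 0 ≤ A6 := by positivity
  have hM3a : 0 ≤ (M₃ : ℝ) ^ α := Real.rpow_nonneg (Nat.cast_nonneg _) _
  have hP0 : 0 ≤ P := mul_nonneg (le_max_right _ _) hM3a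
  have hX0 : 0 ≤ X := by positivity
  refine ⟨4 * M₁ * A6 * P + M₂ * X, fun Ω B hB hB2 => ?_⟩
  have hBc : (0:ℝ) < B.card := by exact_mod_cast (by omega : 0 < B.card)
  set t : ℝ := (B.card : ℝ) ^ α with ht
  have ht0 : 0 < t := Real.rpow_pos_of_pos hBc _
  by_cases htX : t ≤ X
  · obtain ⟨f, hf0, hf1, hf2⟩ := trivial_bound G₂ M₂ hM₂ Ω B hB hB2
    refine ⟨f, hf0, hf1, ?_⟩
    have h3 : En G₂ Ω B f ≤ M₂ * ∑ x ∈ B, f x ^ 2 := hf2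
    refine h3.trans (mul_le_mul_of_nonneg_right ?_ hf1.le)
    rw [le_div_iff₀ ht0]
    have h4 : (M₂:ℝ) * t ≤ M₂ * X := mul_le_mul_of_nonneg_left htX (Nat.cast_nonneg _)
    have h5 : 0 ≤ 4 * M₁ * A6 * P := by positivity
    linarith
  · push Not at htX
    have hBM : M₃ < B.card := by
      by_contra hc
      push Not at hc
      have h3 : t ≤ (M₃ : ℝ) ^ α :=
        Real.rpow_le_rpow hBc.le (by exact_mod_cast hc) hα.le
      have h4 : 0 ≤ 2 * A3 * P := by positivity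
      linarith
    set U : Finset V₁ := ((Ω ∪ B).biUnion (fun w => sR (ψ w))).filter
      (fun v => ∃ w, (w ∈ Ω ∨ w ∈ B) ∧ G₁.dist (ψ w) v ≤ R) with hUdef
    have hU : ∀ v, v ∈ U ↔ ∃ w, (w ∈ Ω ∨ w ∈ B) ∧ G₁.dist (ψ w) v ≤ R := by
      intro v
      rw [hUdef, Finset.mem_filter]
      constructor
      · exact fun h => h.2
      · rintro ⟨w, hw, hwv⟩
        refine ⟨?_, w, hw, hwv⟩
        rw [Finset.mem_biUnion]
        exact ⟨w, Finset.mem_union.2 hw, hsR _ _ hwv⟩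
    obtain ⟨N, hN, hNind, hNdom⟩ := exists_indep G₁ (B.image ψ)
    set B' : Finset V₁ := ((U \ N).biUnion s1).filter
      (fun v => v ∉ U \ N ∧ ∃ u ∈ U \ N, G₁.Adj u v) with hB'def
    have hB' : ∀ v, v ∈ B' ↔ v ∉ U \ N ∧ ∃ u ∈ U \ N, G₁.Adj u v := by
      intro v
      rw [hB'def, Finset.mem_filter]
      constructor
      · exact fun h => h.2
      · rintro ⟨h1, u, hu, huv⟩
        refine ⟨?_, h1, u, hu, huv⟩
        rw [Finset.mem_biUnion]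
        exact ⟨u, hu, hs1 _ _ (SimpleGraph.dist_eq_one_iff_adj.2 huv).le⟩
    have hNB : N ⊆ B' := by
      intro v hv
      rw [hB']
      refine ⟨fun h => (Finset.mem_sdiff.1 h).2 hv, ?_⟩
      obtain ⟨b, hb, rfl⟩ := Finset.mem_image.1 (hN hv)
      obtain ⟨u, hu⟩ := exists_adj G₁ h₁ hinf (ψ b)
      refine ⟨u, Finset.mem_sdiff.2 ⟨(hU u).2 ⟨b, Or.inr hb, ?_⟩, fun huN => hNind _ hv u huN hu⟩, hu.symm⟩
      have := (SimpleGraph.dist_eq_one_iff_adj.2 hu).le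
      omega
    have hcard : B.card ≤ B'.card * M₃ := by
      have h3 : B ⊆ N.biUnion (fun n => B.filter (fun b => G₁.dist n (ψ b) ≤ T)) := by
        intro b hb
        obtain ⟨n, hn, hnb⟩ := hNdom (ψ b) (Finset.mem_image_of_mem _ hb)
        rw [Finset.mem_biUnion]
        refine ⟨n, hn, Finset.mem_filter.2 ⟨hb, ?_⟩⟩
        rcases hnb with rfl | hnb
        · simp
        · have := (SimpleGraph.dist_eq_one_iff_adj.2 hnb).le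
          omega
      calc B.card ≤ _ := Finset.card_le_card h3
        _ ≤ N.card * M₃ := Finset.card_biUnion_le_card_mul _ _ _ (fun n _ =>
            hM₃ n _ (fun v hv => (Finset.mem_filter.1 hv).2))
        _ ≤ B'.card * M₃ := Nat.mul_le_mul_right _ (Finset.card_le_card hNB)
    have hB'2 : 2 ≤ B'.card := by
      by_contra hc
      have h3 : B'.card ≤ 1 := by omega
      have h4 : B'.card * M₃ ≤ 1 * M₃ := Nat.mul_le_mul_right _ h3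
      omega
    obtain ⟨f, hf0, hf1, hf2⟩ := hC₁ (U \ N) B' hB' hB'2
    obtain ⟨g, hg0, hgE, hgS⟩ := core G₁ G₂ h₁ h₂ ψ L c' hL1 hL2 hc' K R T0 K0 T T1 hK hR hT0 hK0
      hT hT1 M₁ M₂ M₃ hM₁ hM₂ hM₃ Ω B hB (Finset.card_pos.1 (by omega)) U N B' hU hN hNind hNB
      hB' f hf0
    have hE0 : 0 ≤ En G₁ (U \ N) B' f := En_nonneg _ _ _ _
    set E' := En G₁ (U \ N) B' f
    set S' := ∑ x ∈ B', f x ^ 2
    set F := ∑ x ∈ B, g x ^ 2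
    have hB'c : (0:ℝ) < B'.card := by exact_mod_cast (by omega : 0 < B'.card)
    have ht'0 : 0 < (B'.card : ℝ) ^ α := Real.rpow_pos_of_pos hB'c _
    have h3 : t ≤ (B'.card : ℝ) ^ α * (M₃ : ℝ) ^ α := by
      rw [← Real.mul_rpow hB'c.le (Nat.cast_nonneg _)]
      exact Real.rpow_le_rpow hBc.le (by exact_mod_cast hcard) hα.le
    have h4 : C₁ / (B'.card : ℝ) ^ α ≤ P / t := by
      rw [div_le_div_iff₀ ht'0 ht0, hP]
      calc C₁ * t ≤ max C₁ 0 * t := mul_le_mul_of_nonneg_right (le_max_left _ _) ht0.le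
        _ ≤ max C₁ 0 * ((B'.card : ℝ) ^ α * (M₃ : ℝ) ^ α) :=
            mul_le_mul_of_nonneg_left h3 (le_max_right _ _)
        _ = max C₁ 0 * (M₃ : ℝ) ^ α * (B'.card : ℝ) ^ α := by ring
    have h5 : E' ≤ P / t * S' := hf2.trans (mul_le_mul_of_nonneg_right h4 hf1.le)
    have h6 : A3 * (P / t) ≤ 1 / 2 := by
      rw [← mul_div_assoc, div_le_iff₀ ht0]
      have : 2 * A3 * P ≤ t := by linarith
      linarith
    have h7 : A3 * E' ≤ 1 / 2 * S' := by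
      calc A3 * E' ≤ A3 * (P / t * S') := mul_le_mul_of_nonneg_left h5 hA30
        _ = A3 * (P / t) * S' := by ring
        _ ≤ 1 / 2 * S' := mul_le_mul_of_nonneg_right h6 hf1.le
    have h8 : S' ≤ 4 * M₁ * F := by linarith
    have hPt : 0 ≤ P / t := by positivity
    have hF0 : 0 ≤ F := Finset.sum_nonneg fun x _ => sq_nonneg _
    have hF : 0 < F := by
      rcases hF0.lt_or_eq with h | h
      · exact h
      · rw [← h] at h8; linarith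
    refine ⟨g, hg0, hF, ?_⟩
    calc En G₂ Ω B g ≤ A6 * E' := hgE
      _ ≤ A6 * (P / t * S') := mul_le_mul_of_nonneg_left h5 hA60
      _ ≤ A6 * (P / t * (4 * M₁ * F)) :=
          mul_le_mul_of_nonneg_left (mul_le_mul_of_nonneg_left h8 hPt) hA60
      _ = (4 * M₁ * A6 * P) / t * F := by ring
      _ ≤ (4 * M₁ * A6 * P + M₂ * X) / t * F := by
          refine mul_le_mul_of_nonneg_right ?_ hF0
          refine div_le_div_of_nonneg_right ?_ ht0.le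
          have : 0 ≤ (M₂:ℝ) * X := by positivity
          linarith

end Pool.Agent.H364R3.Steklov
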